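import Pool.Agent.Helper65.TU.Stmts

/-! # Row JAM of `Pool.Agent.Helper65.TU.Stmts`: James' sequence -/

open Set Filter Topology

namespace Pool.Agent.Helper65.TU

universe u

namespace S44

/-- Helly's lemma -/
theorem helly {X : Type u} [NormedAddCommGroup X] [NormedSpace ℝ X]
    (F : StrongDual ℝ X →ₗ[ℝ] ℝ) (hF : ∀ f, F f ≤ ‖f‖) {ι : Type u} [Fintype ι]
    (f : ι → StrongDual ℝ X) (ε : ℝ) (hε : 0 < ε) :
    ∃ x : X, ‖x‖ ≤ 1 ∧ ∀ i, F (f i) - ε ≤ f i x := by
  classical
  set T : X →L[ℝ] (ι → ℝ) := ContinuousLinearMap.pi f with hT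
  set S : Set (ι → ℝ) := closure (T '' Metric.closedBall 0 1) with hS
  have hv : (fun i => F (f i)) ∈ S := by
    by_contra hv
    obtain ⟨φ, r, h1, h2⟩ := geometric_hahn_banach_closed_point
      (((convex_closedBall (0 : X) 1).linear_image T.toLinearMap).closure) isClosed_closure hv
    set c : ι → ℝ := fun i => φ (Pi.single i 1) with hc
    have hφ : ∀ w : ι → ℝ, φ w = ∑ i, w i * c i := by
      intro w
      have e : w = ∑ i, w i • (Pi.single i (1 : ℝ) : ι → ℝ) := by
        funext j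
        simp [Finset.sum_apply, Pi.single_apply]
      conv_lhs => rw [e]
      rw [map_sum]
      refine Finset.sum_congr rfl fun i _ => ?_
      rw [map_smul, smul_eq_mul]
    set g : StrongDual ℝ X := ∑ i, c i • f i with hg
    have hgx : ∀ x, g x = φ (T x) := by
      intro x
      rw [hφ, hg]
      simp [hT, mul_comm]
    have hball : ∀ x : X, ‖x‖ ≤ 1 → g x < r := by
      intro x hx
      rw [hgx]
      exact h1 _ (subset_closure ⟨x, by simpa using hx, rfl⟩)
    have hr : 0 < r := by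
      have := hball 0 (by simp)
      simpa using this
    have hnorm : ‖g‖ ≤ r := by
      refine ContinuousLinearMap.opNorm_le_bound g hr.le fun x => ?_
      by_cases hx : x = 0
      · simp [hx]
      have hx' : 0 < ‖x‖ := norm_pos_iff.2 hx
      have k1 := hball (‖x‖⁻¹ • x) (by rw [norm_smul, norm_inv, norm_norm, inv_mul_cancel₀ hx'.ne'])
      have k2 := hball (-(‖x‖⁻¹ • x)) (by
        rw [norm_neg, norm_smul, norm_inv, norm_norm, inv_mul_cancel₀ hx'.ne'])
      rw [map_neg, map_smul, smul_eq_mul] at k2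
      rw [map_smul, smul_eq_mul] at k1
      rw [Real.norm_eq_abs, abs_le]
      constructor
      · have := mul_le_mul_of_nonneg_right k2.le hx'.le
        have e : -(‖x‖⁻¹ * g x) * ‖x‖ = -g x := by
          field_simp
        rw [e] at this
        linarith
      · have := mul_le_mul_of_nonneg_right k1.le hx'.le
        have e : ‖x‖⁻¹ * g x * ‖x‖ = g x := by
          field_simp
        rwa [e] at this
    have hFg : F g = φ (fun i => F (f i)) := by
      rw [hφ, hg, map_sum]
      refine Finset.sum_congr rfl fun i _ => ?_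
      rw [map_smul, smul_eq_mul, mul_comm]
    have h3 : F g ≤ ‖g‖ := hF g
    linarith
  obtain ⟨y, ⟨x, hx, rfl⟩, hy⟩ := Metric.mem_closure_iff.1 hv ε hε
  refine ⟨x, by simpa using hx, fun i => ?_⟩
  have h1 := dist_le_pi_dist (fun i => F (f i)) (T x) i
  have h2 : dist (F (f i)) (f i x) < ε := lt_of_le_of_lt h1 hy
  rw [Real.dist_eq, abs_lt] at h2
  linarith [h2.2]

section core

variable {D : Type u} [NormedAddCommGroup D] [NormedSpace ℝ D]

/-- small on a finite-codimensional subspace: near the span of the functionals -/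
theorem near_span (F : D →L[ℝ] ℝ) (δ : ℝ) (hδ : 0 < δ) {ι : Type u} [Finite ι]
    (e : ι → D →L[ℝ] ℝ) (hcon : ∀ f : D, ‖f‖ ≤ 1 → (∀ i, e i f = 0) → F f < δ) :
    ∃ y ∈ Submodule.span ℝ (range e), ‖F - y‖ ≤ δ := by
  set p : Submodule ℝ D := ⨅ i, LinearMap.ker (e i).toLinearMap with hp
  have hmem : ∀ f ∈ p, ∀ i, e i f = 0 := by
    intro f hf i
    have := (Submodule.mem_iInf _).1 hf i
    simpa using this
  have hbd : ‖F.comp p.subtypeL‖ ≤ δ := by
    refine ContinuousLinearMap.opNorm_le_bound _ hδ.le fun f => ?_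
    obtain ⟨f, hf⟩ := f
    by_cases h0 : f = 0
    · subst h0
      simp
    have hn : 0 < ‖f‖ := norm_pos_iff.2 h0
    have hz := hmem f hf
    have k1 := hcon (‖f‖⁻¹ • f) (by rw [norm_smul, norm_inv, norm_norm, inv_mul_cancel₀ hn.ne'])
      (fun i => by simp [hz i])
    have k2 := hcon (-(‖f‖⁻¹ • f)) (by
      rw [norm_neg, norm_smul, norm_inv, norm_norm, inv_mul_cancel₀ hn.ne'])
      (fun i => by simp [hz i])
    rw [map_neg, map_smul, smul_eq_mul] at k2
    rw [map_smul, smul_eq_mul] at k1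
    show ‖F f‖ ≤ δ * ‖f‖
    rw [Real.norm_eq_abs, abs_le]
    constructor
    · have := mul_le_mul_of_nonneg_right k2.le hn.le
      have e : -(‖f‖⁻¹ * F f) * ‖f‖ = -F f := by
        field_simp
      rw [e] at this
      linarith
    · have := mul_le_mul_of_nonneg_right k1.le hn.le
      have e : ‖f‖⁻¹ * F f * ‖f‖ = F f := by
        field_simp
      rwa [e] at this
  obtain ⟨G, hG, hGn⟩ := exists_extension_norm_eq p (F.comp p.subtypeL)
  have hker : ⨅ i, LinearMap.ker (e i).toLinearMap ≤ LinearMap.ker (F - G).toLinearMap := by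
    intro f hf
    have := hG ⟨f, hf⟩
    simp only [LinearMap.mem_ker]
    show F f - G f = 0
    rw [this]
    simp
  have hspan := mem_span_of_iInf_ker_le_ker hker
  have hle : Submodule.span ℝ (range fun i => (e i).toLinearMap) ≤
      (Submodule.span ℝ (range e)).map (ContinuousLinearMap.coeLM ℝ) := by
    rw [Submodule.span_le]
    rintro _ ⟨i, rfl⟩
    exact ⟨e i, Submodule.subset_span ⟨i, rfl⟩, rfl⟩
  obtain ⟨y, hys, hy⟩ := hle hspan
  have hy' : y = F - G := ContinuousLinearMap.coe_injective hy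
  refine ⟨y, hys, ?_⟩
  rw [hy']
  have e : F - (F - G) = G := by abel
  rw [e, hGn]
  exact hbd

/-- a functional at positive distance from a complete proper subspace -/
theorem core {X : Type u} [NormedAddCommGroup X] [NormedSpace ℝ X] [CompleteSpace X]
    (J : X →ₗᵢ[ℝ] (D →L[ℝ] ℝ)) (hns : ¬ Function.Surjective J) :
    ∃ (F : D →L[ℝ] ℝ) (θ : ℝ), 0 < θ ∧ (∀ f, F f ≤ ‖f‖) ∧
      ∀ {ι : Type u} [Finite ι] (x : ι → X), ∃ f : D, ‖f‖ ≤ 1 ∧ (∀ i, J (x i) f = 0) ∧
        3 * θ ≤ F f := by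
  obtain ⟨F0, hF0⟩ : ∃ F0, F0 ∉ range J := by
    by_contra h
    push Not at h
    exact hns fun y => h y
  have hclosed : IsClosed (range J) := J.isometry.isClosedEmbedding.isClosed_range
  have hd : 0 < Metric.infDist F0 (range J) :=
    (hclosed.notMem_iff_infDist_pos ⟨J 0, mem_range_self 0⟩).1 hF0
  set d := Metric.infDist F0 (range J) with hddef
  have hc : 0 < ‖F0‖ := by
    refine norm_pos_iff.2 fun h => hF0 ?_
    rw [h]
    exact ⟨0, map_zero _⟩
  set F : D →L[ℝ] ℝ := ‖F0‖⁻¹ • F0 with hFdef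
  have hF1 : ‖F‖ ≤ 1 := by
    rw [hFdef, norm_smul, norm_inv, norm_norm, inv_mul_cancel₀ hc.ne']
  set θ : ℝ := ‖F0‖⁻¹ * d / 4 with hθ
  have hθ0 : 0 < θ := by positivity
  have hdist : ∀ y : X, 4 * θ ≤ ‖F - J y‖ := by
    intro y
    have h1 : d ≤ ‖F0 - J (‖F0‖ • y)‖ := by
      rw [← dist_eq_norm]
      exact Metric.infDist_le_dist_of_mem (mem_range_self _)
    have h2 : F - J y = ‖F0‖⁻¹ • (F0 - J (‖F0‖ • y)) := by
      rw [map_smul, smul_sub, smul_smul, inv_mul_cancel₀ hc.ne', one_smul]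
    rw [h2, norm_smul, norm_inv, norm_norm, hθ]
    have := mul_le_mul_of_nonneg_left h1 (inv_nonneg.2 hc.le)
    linarith
  refine ⟨F, θ, hθ0, fun f => ?_, fun {ι} _ x => ?_⟩
  · have := F.le_opNorm f
    have k := le_abs_self (F f)
    rw [Real.norm_eq_abs] at this
    nlinarith [norm_nonneg f]
  · by_contra hcon
    push Not at hcon
    obtain ⟨y, hys, hy⟩ := near_span F (3 * θ) (by linarith) (fun i => J (x i)) hcon
    have hle : Submodule.span ℝ (range fun i => J (x i)) ≤ LinearMap.range J.toLinearMap := by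
      rw [Submodule.span_le]
      rintro _ ⟨i, rfl⟩
      exact ⟨x i, rfl⟩
    obtain ⟨z, hz⟩ := hle hys
    have := hdist z
    have e : J z = y := hz
    rw [e] at this
    linarith

end core

end S44

open S44

theorem st_JAM : ST_JAM.{u} := by
  intro X _ _ _ hR
  classical
  obtain ⟨F, θ, hθ0, hF, hann⟩ := core (D := StrongDual ℝ X)
    (NormedSpace.inclusionInDoubleDualLi ℝ) (fun h => hR h)
  obtain ⟨w, hP, hr⟩ := exists_seq_of_forall_finset_exists
    (fun p : X × StrongDual ℝ X => ‖p.1‖ ≤ 1 ∧ ‖p.2‖ ≤ 1 ∧ 3 * θ ≤ F p.2 ∧ θ ≤ p.2 p.1)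
    (fun p q => q.2 p.1 = 0 ∧ θ ≤ p.2 q.1) (by
      intro s hs
      obtain ⟨f', hf1, hf2, hf3⟩ := hann (fun p : s => p.1.1)
      obtain ⟨x', hx1, hx2⟩ := helly F.toLinearMap hF
        (fun o : Option s => o.elim f' fun p => p.1.2) θ hθ0
      refine ⟨(x', f'), ⟨hx1, hf1, hf3, ?_⟩, fun p hp => ⟨hf2 ⟨p, hp⟩, ?_⟩⟩
      · have := hx2 none
        simp only [Option.elim] at this
        have h4 : F f' - θ ≤ f' x' := this
        linarith
      · have := hx2 (some ⟨p, hp⟩)
        simp only [Option.elim] at this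
        have h3 := (hs p hp).2.2.1
        have h4 : F p.2 - θ ≤ p.2 x' := this
        linarith)
  refine ⟨θ, fun n => (w n).1, fun n => (w n).2, hθ0, fun n => (hP n).1, fun n => (hP n).2.1,
    fun n m hnm => ?_, fun n m hmn => ?_⟩
  · rcases eq_or_lt_of_le hnm with h | h
    · subst h
      exact (hP n).2.2.2
    · exact (hr n m h).2
  · exact (hr m n hmn).1

end Pool.Agent.Helper65.TU
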